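import Pool.Agent.H16.GZ.Targets4
import Pool.Agent.H34.GM.BES

/-!
Row BE2 of gz_modules (MP_52e316_nt): Bessel's inequality for the square of an integral operator,
the outer variable in a subset.
-/

set_option autoImplicit false

namespace Pool.Agent.H37.GZ

open MeasureTheory ENNReal Pool.Agent.H34.GM Pool.Agent.H34.GZ

/-- row BE2 -/
theorem pf_BE2 : T_BE2 := by
  intro X _ ν _ ι _ _ f K P S hS hfm hint ho hK hP hKP
  have hK' : ∀ x, Measurable (K x) := fun x => hK.of_uncurry_left
  have hf : ∀ i, MemLp (f i) 2 ν := fun i => bes_memLp (hfm i) (hint i i)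
  -- measurability of the inner functions
  have hin : ∀ i, StronglyMeasurable (fun y => ∫ z, K y z * f i z ∂ν) := by
    intro i
    have h : StronglyMeasurable (Function.uncurry fun y z => K y z * f i z) :=
      (hK.mul ((hfm i).comp measurable_snd)).stronglyMeasurable
    exact h.integral_prod_right
  have hout : ∀ i, StronglyMeasurable (fun x => ∫ y, K x y * (∫ z, K y z * f i z ∂ν) ∂ν) := by
    intro i
    have h : StronglyMeasurable
        (Function.uncurry fun x y => K x y * (∫ z, K y z * f i z ∂ν)) :=
      (hK.mul ((hin i).measurable.comp measurable_snd)).stronglyMeasurable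
    exact h.integral_prod_right
  rw [← lintegral_finsetSum' Finset.univ fun i _ =>
    ((((hout i).measurable.norm.pow_const 2).ennreal_ofReal).aemeasurable)]
  refine lintegral_mono fun x => ?_
  -- the pointwise inequality
  set L : X → ENNReal := fun z => ∫⁻ y, P x y * P y z ∂ν with hL
  have hPx : Measurable (P x) := hP.of_uncurry_left
  have hLm : Measurable L := by
    have h : Measurable (Function.uncurry fun z y => P x y * P y z) :=
      (hPx.comp measurable_snd).mul (hP.comp (measurable_snd.prodMk measurable_fst))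
    exact h.lintegral_prod_right
  by_cases htop : ∫⁻ z, L z ^ 2 ∂ν = ⊤
  · rw [htop]; exact le_top
  -- integrability on the product
  have hnf : ∀ i, ∫⁻ z, (ENNReal.ofReal ‖f i z‖) ^ 2 ∂ν ≠ ⊤ := by
    intro i
    have h1 : Integrable (fun x => ‖f i x‖ ^ 2) ν :=
      (memLp_two_iff_integrable_sq_norm (hf i).1).1 (hf i)
    have h2 := h1.lintegral_lt_top
    have h3 : ∫⁻ z, (ENNReal.ofReal ‖f i z‖) ^ 2 ∂ν = ∫⁻ z, ENNReal.ofReal (‖f i z‖ ^ 2) ∂ν := by
      refine lintegral_congr fun z => ?_
      rw [ENNReal.ofReal_pow (norm_nonneg _)]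
    rw [h3]; exact h2.ne
  have hprod : ∀ i, Integrable (Function.uncurry fun y z => K x y * (K y z * f i z)) (ν.prod ν) := by
    intro i
    have hm : Measurable (Function.uncurry fun y z => K x y * (K y z * f i z)) :=
      ((hK' x).comp measurable_fst).mul (hK.mul ((hfm i).comp measurable_snd))
    refine ⟨hm.aestronglyMeasurable, ?_⟩
    have hle : ∫⁻ p, ‖(Function.uncurry fun y z => K x y * (K y z * f i z)) p‖ₑ ∂(ν.prod ν) ≤
        ∫⁻ p, (P x p.1 * P p.1 p.2) * ENNReal.ofReal ‖f i p.2‖ ∂(ν.prod ν) := by
      refine lintegral_mono fun p => ?_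
      simp only [Function.uncurry, enorm_mul]
      rw [← mul_assoc]
      gcongr
      · rw [← ofReal_norm]; exact hKP _ _
      · rw [← ofReal_norm]; exact hKP _ _
      · rw [← ofReal_norm]
    refine lt_of_le_of_lt hle ?_
    have hm2 : Measurable fun p : X × X => (P x p.1 * P p.1 p.2) * ENNReal.ofReal ‖f i p.2‖ :=
      ((hPx.comp measurable_fst).mul hP).mul (((hfm i).comp measurable_snd).norm.ennreal_ofReal)
    rw [lintegral_prod_symm' _ hm2]
    have h1 : ∀ z, ∫⁻ y, (P x y * P y z) * ENNReal.ofReal ‖f i z‖ ∂ν =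
        L z * ENNReal.ofReal ‖f i z‖ := by
      intro z
      rw [lintegral_mul_const]
      exact hPx.mul (hP.comp (measurable_id.prodMk measurable_const))
    simp only [h1]
    exact lt_top_iff_ne_top.2
      (bes_cs hLm.aemeasurable ((hfm i).norm.ennreal_ofReal).aemeasurable htop (hnf i))
  -- the composed kernel
  set H : X → ℂ := fun z => ∫ y, K x y * K y z ∂ν with hH
  have hHm : Measurable H := by
    have h : StronglyMeasurable (Function.uncurry fun z y => K x y * K y z) :=
      (((hK' x).comp measurable_snd).mul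
        (hK.comp (measurable_snd.prodMk measurable_fst))).stronglyMeasurable
    exact h.integral_prod_right.measurable
  have hHL : ∀ z, ENNReal.ofReal ‖H z‖ ≤ L z := by
    intro z
    rw [ofReal_norm]
    refine (enorm_integral_le_lintegral_enorm _).trans ?_
    refine lintegral_mono fun y => ?_
    rw [enorm_mul, ← ofReal_norm, ← ofReal_norm]
    exact mul_le_mul' (hKP _ _) (hKP _ _)
  have hH2 : ∫⁻ z, ENNReal.ofReal (‖H z‖ ^ 2) ∂ν ≤ ∫⁻ z, L z ^ 2 ∂ν := by
    refine lintegral_mono fun z => ?_
    rw [ENNReal.ofReal_pow (norm_nonneg _)]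
    exact pow_le_pow_left' (hHL z) 2
  have hHp : MemLp H 2 ν := by
    rw [memLp_two_iff_integrable_sq_norm hHm.aestronglyMeasurable]
    refine ⟨(hHm.norm.pow_const 2).aestronglyMeasurable, ?_⟩
    refine lt_of_le_of_lt ?_ (lt_of_le_of_lt hH2 (lt_top_iff_ne_top.2 htop))
    refine lintegral_mono fun z => ?_
    rw [← ofReal_norm, Real.norm_of_nonneg (by positivity)]
  have hswap : ∀ i, ∫ y, K x y * (∫ z, K y z * f i z ∂ν) ∂ν = ∫ z, H z * f i z ∂ν := by
    intro i
    have h1 : ∫ y, K x y * (∫ z, K y z * f i z ∂ν) ∂ν =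
        ∫ y, ∫ z, K x y * (K y z * f i z) ∂ν ∂ν := by
      refine integral_congr_ae (Filter.Eventually.of_forall fun y => ?_)
      simp only
      rw [integral_const_mul]
    rw [h1, integral_integral_swap (hprod i)]
    refine integral_congr_ae (Filter.Eventually.of_forall fun z => ?_)
    simp only [hH]
    rw [← integral_mul_const]
    refine integral_congr_ae (Filter.Eventually.of_forall fun y => ?_)
    simp only
    ring
  simp only [hswap]
  exact (bes_bessel hf ho hHp).trans hH2

end Pool.Agent.H37.GZ
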