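import Pool.Agent.H23.GZ.Targets5

/-!
Row TAY of gz_modules (MP_52e316_nt): the differences of a Fourier transform.
-/

set_option autoImplicit false

namespace Pool.Agent.H37.GZ

open MeasureTheory Pool.Agent.H34.GM Pool.Agent.H34.GZ

theorem tay_ee_add (x y : ℝ) : ee (x + y) = ee x * ee y := by
  unfold ee
  rw [← Complex.exp_add]
  congr 1
  push_cast; ring

theorem tay_ee_sum {ι : Type} (s : Finset ι) (f : ι → ℝ) : ee (∑ i ∈ s, f i) = ∏ i ∈ s, ee (f i) := by
  classical
  induction s using Finset.induction_on with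
  | empty => simp [ee]
  | insert a s ha ih => rw [Finset.sum_insert ha, Finset.prod_insert ha, tay_ee_add, ih]

theorem tay_ee_norm (x : ℝ) : ‖ee x‖ = 1 := by
  unfold ee
  have h : (2 * (Real.pi : ℂ) * Complex.I * x) = ((2 * Real.pi * x : ℝ) : ℂ) * Complex.I := by
    push_cast; ring
  rw [h, Complex.norm_exp_ofReal_mul_I]

theorem tay_ee_conj (x : ℝ) : (starRingEnd ℂ) (ee (-x)) = ee x := by
  unfold ee
  rw [← Complex.exp_conj]
  congr 1
  simp only [map_mul, Complex.conj_ofReal, Complex.conj_I, map_ofNat]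
  push_cast; ring

theorem tay_ee_cont : Continuous ee := by
  unfold ee
  exact Complex.continuous_exp.comp (continuous_const.mul Complex.continuous_ofReal)

/-- the pairing with the component `j` -/
noncomputable def tB {m : ℕ} (z : Mat m) (x : V m) (j : Fin m) : ℝ := ∑ i, oc z j i * x j i

/-- the rest -/
noncomputable def tA {m : ℕ} (z : Mat m) (x : V m) (j : Fin m) : ℝ :=
  ∑ i, z i j * x j i - tB z x j

theorem tay_trace {m : ℕ} (ρ : Fin m → ℝ) (z : Mat m) (x : V m) :
    (sc ρ z * mt x).trace = ∑ j, (tA z x j + ρ j * tB z x j) := by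
  unfold Matrix.trace
  simp only [Matrix.diag_apply, Matrix.mul_apply]
  rw [Finset.sum_comm]
  refine Finset.sum_congr rfl fun j _ => ?_
  unfold tA tB sc
  simp only [Matrix.of_apply]
  rw [Finset.mul_sum, ← Finset.sum_sub_distrib, ← Finset.sum_add_distrib]
  refine Finset.sum_congr rfl fun i _ => ?_
  ring

theorem tay_sum {m : ℕ} (K : Fin m → ℕ) (z : Mat m) (x : V m) :
    ∑ n ∈ nK K, cK K 1 n * ee ((sc (fun j => (2 : ℝ) ^ n j) z * mt x).trace) =
      ∏ j, (ee (tA z x j) * ∑ k ∈ Finset.range (K j + 1),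
        (((pK (K j)).coeff k : ℝ) : ℂ) * ee (2 ^ k * tB z x j)) := by
  simp only [Finset.mul_sum]
  rw [Finset.prod_univ_sum]
  unfold nK
  refine Finset.sum_congr rfl fun n _ => ?_
  rw [tay_trace, tay_ee_sum]
  unfold cK
  rw [← Finset.prod_mul_distrib]
  refine Finset.prod_congr rfl fun j _ => ?_
  rw [tay_ee_add]
  simp only [Pi.one_apply, one_pow, mul_one]
  ring

theorem tay_B {m : ℕ} (z : Mat m) (x : V m) (hx : ‖x‖ ≤ 2) (j : Fin m) :
    |tB z x j| ≤ (2 * m + 1) * ‖oc z j‖ := by
  unfold tB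
  refine (Finset.abs_sum_le_sum_abs _ _).trans ?_
  have h1 : ∀ i ∈ (Finset.univ : Finset (Fin m)), |oc z j i * x j i| ≤ 2 * ‖oc z j‖ := by
    intro i _
    rw [abs_mul]
    have h2 : |oc z j i| ≤ ‖oc z j‖ := by
      have := PiLp.norm_apply_le (oc z j) i
      rwa [Real.norm_eq_abs] at this
    have h3 : |x j i| ≤ 2 := by
      have h4 := norm_le_pi_norm (x j) i
      have h5 := norm_le_pi_norm x j
      rw [Real.norm_eq_abs] at h4
      linarith
    calc |oc z j i| * |x j i| ≤ ‖oc z j‖ * 2 :=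
          mul_le_mul h2 h3 (abs_nonneg _) (norm_nonneg _)
      _ = _ := by ring
  refine (Finset.sum_le_card_nsmul _ _ _ h1).trans ?_
  rw [Finset.card_univ, Fintype.card_fin, nsmul_eq_mul]
  nlinarith [norm_nonneg (oc z j)]

theorem tay_cf {m : ℕ} (φ : Mat m → ℂ) (w : Mat m) :
    cf φ w = ∫ x : V m, (starRingEnd ℂ) (φ (mt x)) * ee ((w * mt x).trace) := by
  unfold cf ft
  rw [← integral_conj]
  refine integral_congr_ae (Filter.Eventually.of_forall fun x => ?_)
  show (starRingEnd ℂ) (φ (mt x) * ee (-(w * mt x).trace)) = _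
  rw [map_mul, tay_ee_conj]

theorem tay_mt {m : ℕ} : Continuous (fun x : V m => mt x) := continuous_id

theorem tay_int {m : ℕ} (φ : Mat m → ℂ) (hφ : Continuous φ) (hs : ∀ z, φ z ≠ 0 → sz z ≤ 2)
    (w : Mat m) :
    Integrable (fun x : V m => (starRingEnd ℂ) (φ (mt x)) * ee ((w * mt x).trace)) := by
  refine Continuous.integrable_of_hasCompactSupport ?_ ?_
  · refine (Complex.continuous_conj.comp (hφ.comp tay_mt)).mul (tay_ee_cont.comp ?_)
    have h1 : Continuous fun x : V m => w * mt x := continuous_const.mul tay_mt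
    exact h1.matrix_trace
  · refine HasCompactSupport.intro (isCompact_closedBall (0 : V m) 2) fun x hx => ?_
    have h1 : φ (mt x) = 0 := by
      by_contra h2
      apply hx
      rw [mem_closedBall_zero_iff]
      exact hs _ h2
    rw [h1, map_zero, zero_mul]

/-- row TAY -/
theorem pf_TAY (hE : T_EXB) : T_TAY := by
  intro m K
  choose Cc hC0 hC using fun j => hE (K j)
  set vol : ℝ := volume.real (Metric.closedBall (0 : V m) 2) with hvol
  have hvol0 : 0 ≤ vol := measureReal_nonneg
  have hPpos : 0 < ∏ j, (Cc j * (2 * (m : ℝ) + 1) ^ K j) :=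
    Finset.prod_pos fun j _ => by
      have := hC0 j
      positivity
  refine ⟨(∏ j, (Cc j * (2 * (m : ℝ) + 1) ^ K j)) * (vol + 1), by positivity,
    fun φ M hφ hM hφM hs z => ?_⟩
  set P : ℝ := ∏ j, ‖oc z j‖ ^ K j with hP
  have hP0 : 0 ≤ P := Finset.prod_nonneg fun j _ => by positivity
  -- the sum as one integral
  have h1 : sK K (cf φ) z = ∫ x : V m, (starRingEnd ℂ) (φ (mt x)) *
      ∑ n ∈ nK K, cK K 1 n * ee ((sc (fun j => (2 : ℝ) ^ n j) z * mt x).trace) := by
    unfold sK
    have h2 : ∀ n ∈ nK K, cK K 1 n * cf φ (sc (fun j => (2 : ℝ) ^ n j) z) =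
        ∫ x : V m, cK K 1 n * ((starRingEnd ℂ) (φ (mt x)) *
          ee ((sc (fun j => (2 : ℝ) ^ n j) z * mt x).trace)) := by
      intro n _
      rw [integral_const_mul, tay_cf]
    rw [Finset.sum_congr rfl h2, ← integral_finsetSum]
    · refine integral_congr_ae (Filter.Eventually.of_forall fun x => ?_)
      simp only
      rw [Finset.mul_sum]
      exact Finset.sum_congr rfl fun n _ => by ring
    · intro n _
      exact (tay_int φ hφ hs _).const_mul _
  -- the pointwise bound
  have h3 : ∀ x ∈ Metric.closedBall (0 : V m) 2, ‖(starRingEnd ℂ) (φ (mt x)) *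
      ∑ n ∈ nK K, cK K 1 n * ee ((sc (fun j => (2 : ℝ) ^ n j) z * mt x).trace)‖ ≤
      M * ((∏ j, (Cc j * (2 * (m : ℝ) + 1) ^ K j)) * P) := by
    intro x hx
    rw [mem_closedBall_zero_iff] at hx
    rw [tay_sum, norm_mul, Complex.norm_conj, norm_prod, hP, ← Finset.prod_mul_distrib]
    refine mul_le_mul (hφM _) ?_ (Finset.prod_nonneg fun _ _ => norm_nonneg _) hM
    refine Finset.prod_le_prod (fun _ _ => norm_nonneg _) fun j _ => ?_
    rw [norm_mul, tay_ee_norm, one_mul]
    refine (hC j _).trans ?_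
    have h4 := tay_B z x hx j
    have h5 := hC0 j
    calc Cc j * |tB z x j| ^ K j ≤ Cc j * ((2 * m + 1) * ‖oc z j‖) ^ K j := by gcongr
      _ = _ := by rw [mul_pow]; ring
  rw [h1, ← setIntegral_eq_integral_of_forall_compl_eq_zero (s := Metric.closedBall (0 : V m) 2)]
  · refine (norm_setIntegral_le_of_norm_le_const ?_ h3).trans ?_
    · exact (isCompact_closedBall (0 : V m) 2).measure_lt_top
    · rw [← hvol]
      have h6 : 0 ≤ M * ((∏ j, (Cc j * (2 * (m : ℝ) + 1) ^ K j)) * P) := by positivity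
      nlinarith
  · intro x hx
    have h7 : φ (mt x) = 0 := by
      by_contra h2
      apply hx
      rw [mem_closedBall_zero_iff]
      exact hs _ h2
    rw [h7, map_zero, zero_mul]

end Pool.Agent.H37.GZ
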